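import Pool.Agent.Helper64.RF.GoalsD

/-!
Packet ID2 (second variation identity) of project RF (MP_c98eff_gt).
-/

open scoped Quaternion

namespace Pool.Agent.Helper77.RF

open Pool.Agent.Helper64.RF

/-- the variation -/
noncomputable def bq (V Γ : W) (u : ℝ) : ℍ[ℝ] := 1 + u • iot V - (u ^ 2 / 2) • iot Γ

theorem bq_re (V Γ : W) (u : ℝ) : (bq V Γ u).re = 1 := by
  simp [bq]

theorem bq_ne (V Γ : W) (u : ℝ) : bq V Γ u ≠ 0 := by
  intro h
  have := bq_re V Γ u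
  rw [h] at this
  simp at this

theorem bq_zero (V Γ : W) : bq V Γ 0 = 1 := by
  simp [bq]

/-- first derivative of the variation -/
noncomputable def bq1 (V Γ : W) (u : ℝ) : ℍ[ℝ] := iot V - u • iot Γ

theorem bq1_zero (V Γ : W) : bq1 V Γ 0 = iot V := by
  simp [bq1]

theorem hasDerivAt_quad (p q r : ℍ[ℝ]) (u : ℝ) :
    HasDerivAt (fun u : ℝ => p + u • q - (u ^ 2 / 2) • r) (q - u • r) u := by
  have h1 : HasDerivAt (fun u : ℝ => u • q) ((1:ℝ) • q) u := (hasDerivAt_id u).smul_const q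
  rw [one_smul] at h1
  have h2 : HasDerivAt (fun u : ℝ => u ^ 2 / 2) u u := by
    have := (hasDerivAt_pow 2 u).div_const 2
    have e : ((2:ℕ):ℝ) * u ^ (2 - 1) / 2 = u := by norm_num
    rw [e] at this
    exact this
  exact (h1.const_add p).sub (h2.smul_const r)

theorem hasDerivAt_lin (q r : ℍ[ℝ]) (u : ℝ) :
    HasDerivAt (fun u : ℝ => q - u • r) (-r) u := by
  have h1 : HasDerivAt (fun u : ℝ => u • r) ((1:ℝ) • r) u := (hasDerivAt_id u).smul_const r
  have h3 := h1.const_sub q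
  simpa using h3

theorem hasDerivAt_bq (V Γ : W) (u : ℝ) : HasDerivAt (bq V Γ) (bq1 V Γ u) u :=
  hasDerivAt_quad 1 (iot V) (iot Γ) u

theorem hasDerivAt_bq1 (V Γ : W) (u : ℝ) : HasDerivAt (bq1 V Γ) (- iot Γ) u :=
  hasDerivAt_lin (iot V) (iot Γ) u

/-- the inverse of the variation -/
noncomputable def cq (V Γ : W) (u : ℝ) : ℍ[ℝ] := (bq V Γ u)⁻¹

theorem cq_zero (V Γ : W) : cq V Γ 0 = 1 := by
  simp [cq, bq_zero]

theorem hasDerivAt_cq (V Γ : W) (u : ℝ) :
    HasDerivAt (cq V Γ) (-(cq V Γ u * bq1 V Γ u * cq V Γ u)) u := by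
  have h1 := (hasFDerivAt_inv' (𝕜 := ℝ) (bq_ne V Γ u)).comp_hasDerivAt u (hasDerivAt_bq V Γ u)
  have h2 : HasDerivAt (cq V Γ) _ u := h1
  convert h2 using 1
  simp [cq, ContinuousLinearMap.mulLeftRight_apply]

/-- first derivative of the inverse -/
noncomputable def cq1 (V Γ : W) (u : ℝ) : ℍ[ℝ] := -(cq V Γ u * bq1 V Γ u * cq V Γ u)

theorem cq1_zero (V Γ : W) : cq1 V Γ 0 = - iot V := by
  simp [cq1, cq_zero, bq1_zero]

theorem hasDerivAt_cq1 (V Γ : W) (u : ℝ) :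
    HasDerivAt (cq1 V Γ) (-((cq1 V Γ u * bq1 V Γ u + cq V Γ u * (-iot Γ)) * cq V Γ u
      + cq V Γ u * bq1 V Γ u * cq1 V Γ u)) u := by
  have h := ((hasDerivAt_cq V Γ u).mul (hasDerivAt_bq1 V Γ u)).mul (hasDerivAt_cq V Γ u)
  exact h.neg

/-- the transversal part -/
noncomputable def aq (w Γd : W) (u : ℝ) : ℍ[ℝ] := u • iot w - (u ^ 2 / 2) • iot Γd

noncomputable def aq1 (w Γd : W) (u : ℝ) : ℍ[ℝ] := iot w - u • iot Γd

theorem hasDerivAt_aq (w Γd : W) (u : ℝ) : HasDerivAt (aq w Γd) (aq1 w Γd u) u := by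
  have h := hasDerivAt_quad 0 (iot w) (iot Γd) u
  have e : aq w Γd = fun u : ℝ => (0 : ℍ[ℝ]) + u • iot w - (u ^ 2 / 2) • iot Γd := by
    funext s
    rw [zero_add]
    rfl
  rw [e]
  exact h

theorem hasDerivAt_aq1 (w Γd : W) (u : ℝ) : HasDerivAt (aq1 w Γd) (-iot Γd) u :=
  hasDerivAt_lin (iot w) (iot Γd) u

theorem hasDerivAt_im {q : ℝ → ℍ[ℝ]} {q' : ℍ[ℝ]} {u : ℝ} (h : HasDerivAt q q' u) :
    HasDerivAt (fun u => im (q u)) (im q') u :=
  imL.hasFDerivAt.comp_hasDerivAt u h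

/-- The velocity -/
noncomputable def nq (V Γ v w Γd : W) (u : ℝ) : W :=
  im (cq V Γ u * iot v * bq V Γ u + cq V Γ u * aq w Γd u)

noncomputable def nq1 (V Γ v w Γd : W) (u : ℝ) : W :=
  im ((cq1 V Γ u * iot v * bq V Γ u + cq V Γ u * iot v * bq1 V Γ u) +
    (cq1 V Γ u * aq w Γd u + cq V Γ u * aq1 w Γd u))

theorem hasDerivAt_nq (V Γ v w Γd : W) (u : ℝ) :
    HasDerivAt (nq V Γ v w Γd) (nq1 V Γ v w Γd u) u := by
  apply hasDerivAt_im
  exact (((hasDerivAt_cq V Γ u).mul_const (iot v)).mul (hasDerivAt_bq V Γ u)).add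
    ((hasDerivAt_cq V Γ u).mul (hasDerivAt_aq w Γd u))

theorem nq_zero (V Γ v w Γd : W) : nq V Γ v w Γd 0 = v := by
  simp [nq, cq_zero, bq_zero, aq]

theorem nq1_zero (V Γ v w Γd : W) : nq1 V Γ v w Γd 0 = br v V + w := by
  simp only [nq1, cq1_zero, cq_zero, bq_zero, bq1_zero, aq, aq1]
  funext i; fin_cases i <;> simp [im, br] <;> ring

theorem hasDerivAt_nq1_zero (V Γ v w Γd : W) :
    HasDerivAt (nq1 V Γ v w Γd) (-Γd + br (w + br v V) V - br v Γ) 0 := by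
  have h1 := ((hasDerivAt_cq1 V Γ 0).mul_const (iot v)).mul (hasDerivAt_bq V Γ 0)
  have h2 := ((hasDerivAt_cq V Γ 0).mul_const (iot v)).mul (hasDerivAt_bq1 V Γ 0)
  have h3 := (hasDerivAt_cq1 V Γ 0).mul (hasDerivAt_aq w Γd 0)
  have h4 := (hasDerivAt_cq V Γ 0).mul (hasDerivAt_aq1 w Γd 0)
  have h := hasDerivAt_im ((h1.add h2).add (h3.add h4))
  have h' : HasDerivAt (nq1 V Γ v w Γd) _ 0 := h
  convert h' using 1
  simp only [cq1_zero, cq_zero, bq_zero, bq1_zero, aq, aq1]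
  funext i; fin_cases i <;> simp [im, br, Matrix.vecHead, Matrix.vecTail] <;> ring

/-- the direction of the variation -/
noncomputable def xq (V Γ : W) (u : ℝ) : W := im (cq V Γ u * bq1 V Γ u)

theorem xq_zero (V Γ : W) : xq V Γ 0 = V := by
  simp [xq, cq_zero, bq1_zero]

theorem hasDerivAt_xq_zero (V Γ : W) : HasDerivAt (xq V Γ) (-Γ) 0 := by
  have h := hasDerivAt_im ((hasDerivAt_cq V Γ 0).mul (hasDerivAt_bq1 V Γ 0))
  have h' : HasDerivAt (xq V Γ) _ 0 := h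
  convert h' using 1
  simp only [cq_zero, bq1_zero]
  funext i; fin_cases i <;> simp [im] <;> ring

theorem hasDerivAt_xq (V Γ : W) (u : ℝ) : ∃ y, HasDerivAt (xq V Γ) y u :=
  ⟨_, hasDerivAt_im ((hasDerivAt_cq V Γ u).mul (hasDerivAt_bq1 V Γ u))⟩

variable {F : Type*} [NormedAddCommGroup F] [NormedSpace ℝ F]

/-- chain rule along `x b(u)` -/
theorem chain_bq {f : ℍ[ℝ] → F} (hf : SS f) {x : ℍ[ℝ]} (hx : x ≠ 0) (V Γ : W) (u : ℝ) :
    HasDerivAt (fun s => f (x * bq V Γ s)) (Ed (xq V Γ u) f (x * bq V Γ u)) u := by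
  have h0 : x * bq V Γ u ≠ 0 := mul_ne_zero hx (bq_ne V Γ u)
  have h := hf.chain ((hasDerivAt_bq V Γ u).const_mul x) h0
  have e : (x * bq V Γ u)⁻¹ * (x * bq1 V Γ u) = cq V Γ u * bq1 V Γ u := by
    rw [mul_inv_rev, cq, mul_assoc, ← mul_assoc x⁻¹ x, inv_mul_cancel₀ hx, one_mul]
  rw [e] at h
  exact h

theorem chain_bil {f : ℍ[ℝ] → W →L[ℝ] W →L[ℝ] F} (hf : SS f) {x : ℍ[ℝ]} (hx : x ≠ 0) (V Γ : W)
    {u : ℝ} {α β : ℝ → W} {α' β' : W} (hα : HasDerivAt α α' u) (hβ : HasDerivAt β β' u) :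
    HasDerivAt (fun s => f (x * bq V Γ s) (α s) (β s))
      (Ed (xq V Γ u) f (x * bq V Γ u) (α u) (β u) + f (x * bq V Γ u) α' (β u)
        + f (x * bq V Γ u) (α u) β') u := by
  have h1 := (chain_bq hf hx V Γ u).clm_apply hα
  have h2 := h1.clm_apply hβ
  simpa [add_assoc] using h2

/-- Differentiated torsion identity. -/
theorem ed_torsion {g : ℍ[ℝ] → W →L[ℝ] W →L[ℝ] ℝ} {G : ℍ[ℝ] → W →L[ℝ] W →L[ℝ] W}
    (h : LC g G) {x : ℍ[ℝ]} (hx : x ≠ 0) (V v : W) :
    Ed V G x V v = Ed V G x v V := by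
  have h1 : ∀ a b : W, HasDerivAt (fun t : ℝ => G (x + t • (x * iot V)) a b)
      (Ed V G x a b) 0 := by
    intro a b
    have k1 : HasDerivAt (fun t : ℝ => x + t • (x * iot V)) (x * iot V) 0 := by
      have := ((hasDerivAt_id (0:ℝ)).smul_const (x * iot V)).const_add x
      simpa using this
    have k2 : HasFDerivAt G (fderiv ℝ G x) (x + (0:ℝ) • (x * iot V)) := by
      simpa using (h.smooth.differentiableAt hx).hasFDerivAt
    have k3 : HasDerivAt (fun t : ℝ => G (x + t • (x * iot V))) (Ed V G x) 0 :=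
      k2.comp_hasDerivAt 0 k1
    have k4 := (k3.clm_apply (hasDerivAt_const (0:ℝ) a)).clm_apply (hasDerivAt_const (0:ℝ) b)
    simpa using k4
  have h2 := (h1 V v).sub (h1 v V)
  have hcont : Filter.Tendsto (fun t : ℝ => x + t • (x * iot V)) (nhds 0) (nhds x) := by
    have : Continuous (fun t : ℝ => x + t • (x * iot V)) := by fun_prop
    have h := this.tendsto 0
    simpa using h
  have h3 : (fun t : ℝ => G (x + t • (x * iot V)) V v - G (x + t • (x * iot V)) v V)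
      =ᶠ[nhds 0] fun _ => br V v := by
    filter_upwards [hcont.eventually (isOpen_ne.mem_nhds hx)] with t ht
    exact h.torsion _ ht V v
  have h4 := (hasDerivAt_const (0:ℝ) (br V v)).congr_of_eventuallyEq h3
  exact sub_eq_zero.mp (h2.unique h4)

theorem id2 : ID2 := by
  intro g G hg hG x V v w hx
  set Γ : W := G x V V with hΓ
  set Γd : W := Ed v G x V V + G x w V + G x V w with hΓd
  -- the functions
  have hph : ph g G x V v w = fun u => g (x * bq V Γ u) (nq V Γ v w Γd u) (nq V Γ v w Γd u) := by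
    funext u
    rfl
  set D : ℝ → W := fun u => nq1 V Γ v w Γd u + G (x * bq V Γ u) (xq V Γ u) (nq V Γ v w Γd u)
    with hD
  have hne : ∀ u, x * bq V Γ u ≠ 0 := fun u => mul_ne_zero hx (bq_ne V Γ u)
  have hd1 : deriv (ph g G x V v w) =
      fun u => 2 * g (x * bq V Γ u) (D u) (nq V Γ v w Γd u) := by
    funext u
    have h1 := chain_bil hg.smooth hx V Γ (hasDerivAt_nq V Γ v w Γd u)
      (hasDerivAt_nq V Γ v w Γd u)
    rw [hph]
    rw [h1.deriv, hG.metric _ (hne u), hD]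
    simp only [map_add, add_apply]
    rw [hg.symm _ (nq V Γ v w Γd u) (G _ _ _), hg.symm _ (nq V Γ v w Γd u) (nq1 V Γ v w Γd u)]
    ring
  rw [hd1]
  have hG1 := chain_bil hG.smooth hx V Γ (hasDerivAt_xq_zero V Γ) (hasDerivAt_nq V Γ v w Γd 0)
  have hD1 := (hasDerivAt_nq1_zero V Γ v w Γd).add hG1
  have hD2 : HasDerivAt D _ 0 := hD1
  have h2 := (chain_bil hg.smooth hx V Γ hD2 (hasDerivAt_nq V Γ v w Γd 0)).const_mul 2
  rw [h2.deriv]
  rw [hG.metric _ (hne 0)]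
  simp only [bq_zero, mul_one, xq_zero, nq_zero, nq1_zero]
  have hD0 : D 0 = w + G x v V := by
    have ht := hG.torsion x hx v V
    simp only [hD, bq_zero, mul_one, xq_zero, nq_zero, nq1_zero]
    rw [← ht]
    abel
  rw [hD0]
  have key : (-Γd + br (w + br v V) V - br v Γ + (Ed V G x V v + G x (-Γ) v + G x V (br v V + w)))
      + G x V (w + G x v V) = Rm G x V v V := by
    have t1 := hG.torsion x hx w V
    have t2 := hG.torsion x hx v Γ
    have t3 := hG.torsion x hx (br v V) V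
    have t4 := ed_torsion hG hx V v
    have t5 : br V v = - br v V := br_swap v V
    rw [Rm, t4, t5, br_add_left, ← t1, ← t2, ← t3, hΓd]
    simp only [map_add, map_neg, neg_apply]
    rw [← hΓ]
    abel
  rw [← key]
  have t0 : br v V + w = (w + G x v V) - G x V v := by
    have ht := hG.torsion x hx v V
    rw [← ht]; abel
  have e1 : g x (w + G x v V) (br v V + w) = g x (w + G x v V) (w + G x v V) -
      g x (w + G x v V) (G x V v) := by
    rw [t0, map_sub]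
  rw [e1]
  simp only [map_add, add_apply]
  ring

end Pool.Agent.Helper77.RF
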