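import Pool.Agent.Helper73.RF.GoalsB

/-!
Packet P3 (gradient estimate) of project RF (MP_c98eff_gt).
-/

set_option autoImplicit false

open Finset

namespace Pool.Agent.Helper77.RF

open Pool.Agent.Helper73.RF

/-- Second order chain rule. -/
theorem hop_comp {T : ℝ} {F : FBD T} (hF : F.Base) {φ φ1 φ2 : ℝ → ℝ} {U : Set ℝ}
    (hU : IsOpen U) (hφ : ContDiffOn ℝ ((⊤ : ℕ∞) : WithTop ℕ∞) φ U)
    (h1 : ∀ x ∈ U, HasDerivAt φ (φ1 x) x) (h2 : ∀ x ∈ U, HasDerivAt φ1 (φ2 x) x)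
    {f g : F.B} (hf : ∀ z t, F.ev z t f ∈ U) (hg : ∀ z t, F.ev z t g = φ (F.ev z t f))
    (z : F.Z) (t : TI T) :
    (∀ a, F.ev z t (F.H a g) = φ1 (F.ev z t f) * F.ev z t (F.H a f)) ∧
    F.ev z t (F.D g) = φ1 (F.ev z t f) * F.ev z t (F.D f) ∧
    F.ev z t (F.Hop g) = φ1 (F.ev z t f) * F.ev z t (F.Hop f)
      - φ2 (F.ev z t f) * F.ev z t (F.gg f f) := by
  have hd : ∀ x ∈ U, deriv φ x = φ1 x := fun x hx => (h1 x hx).deriv
  have hdd : ∀ x ∈ U, deriv (deriv φ) x = φ2 x := by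
    intro x hx
    have e : deriv φ =ᶠ[nhds x] φ1 := by
      filter_upwards [hU.mem_nhds hx] with y hy
      exact hd y hy
    rw [e.deriv_eq]
    exact (h2 x hx).deriv
  have hφ1 : ContDiffOn ℝ ((⊤ : ℕ∞) : WithTop ℕ∞) (deriv φ) U :=
    hφ.deriv_of_isOpen hU (by simp)
  obtain ⟨g1, hg1⟩ := hF.comp (deriv φ) U hU hφ1 f hf
  have e : ∀ a, F.H a g = g1 * F.H a f := fun a => hF.ext _ _ (fun z t => by
    rw [map_mul, hg1, (hF.chain φ U hU hφ f g hf hg z t).1 a])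
  have c0 := hF.chain φ U hU hφ f g hf hg z t
  have c1 := hF.chain (deriv φ) U hU hφ1 f g1 hf hg1 z t
  rw [hd _ (hf z t)] at c0
  rw [hdd _ (hf z t)] at c1
  have hg1' : F.ev z t g1 = φ1 (F.ev z t f) := by rw [hg1, hd _ (hf z t)]
  refine ⟨c0.1, c0.2.2, ?_⟩
  unfold FBD.Hop FBD.Lap FBD.gg
  simp only [map_sub, map_sum, map_mul]
  rw [c0.2.2]
  have e2 : ∀ a, F.ev z t (F.H a (F.H a g)) = φ1 (F.ev z t f) * F.ev z t (F.H a (F.H a f))
      + φ2 (F.ev z t f) * (F.ev z t (F.H a f) * F.ev z t (F.H a f)) := by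
    intro a
    rw [e a, Derivation.leibniz]
    simp only [smul_eq_mul, map_add, map_mul]
    rw [hg1', c1.1 a]
    ring
  simp only [e2]
  rw [Finset.sum_add_distrib, ← Finset.mul_sum, ← Finset.mul_sum]
  ring

theorem le_of_sq {a b : ℝ} (h : a ^ 2 ≤ b ^ 2) (hb : 0 ≤ b) : a ≤ b :=
  le_trans (le_abs_self a) (abs_le_of_sq_le_sq h hb)

/-- the real inequality for `G` -/
theorem realG {s p q d dM h n c3 X x ρ r τ : ℝ} (hs : 0 < s) (hp : 0 ≤ p) (hq : 0 ≤ q)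
    (hd : 0 ≤ d) (hh : 0 ≤ h) (hρ : ρ = s + τ) (hτ : 0 < τ) (hr : r * ρ = 1) (hpd : p ≤ 27 * d)
    (hdM : dM ≤ 10 * d) (hdM0 : 0 ≤ dM) (hX : X ^ 2 ≤ p * n * dM) (hn : n ≤ s ^ 2) (hn0 : 0 ≤ n)
    (hx : x ^ 2 ≤ 4 * p ^ 2 * h) (hc : 6 * c3 ^ 2 ≤ q ^ 3) (hqs : q ≤ 2 / 3 * s ^ 2) :
    (p * (-(r ^ 2) * (s ^ 2 + n - τ ^ 2) - 2 * r ^ 3 * p) + r * (4 * (s * p) + 4 * X - 2 * h)
      + 2 * (r ^ 2 * x)) + 240 * (-(2 * d) + 4 / 3 * (s * q) + 8 * c3)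
      ≤ -(31 / 3) * p + 960 * (s * q) := by
  have hρ0 : 0 < ρ := by rw [hρ]; positivity
  have hr0 : 0 < r := by
    by_contra hcon
    push Not at hcon
    have := mul_nonneg (neg_nonneg.mpr hcon) hρ0.le
    linarith
  have hrs : r * s ≤ 1 := by
    have : r * s ≤ r * ρ := mul_le_mul_of_nonneg_left (by rw [hρ]; linarith) hr0.le
    linarith
  have hrτ : r * τ ≤ 1 := by
    have : r * τ ≤ r * ρ := mul_le_mul_of_nonneg_left (by rw [hρ]; linarith) hr0.le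
    linarith
  -- the gradient term
  have k1 : x * ρ ≤ h * ρ ^ 2 + p ^ 2 := by
    apply le_of_sq _ (by positivity)
    have a1 := sq_nonneg (h * ρ ^ 2 - p ^ 2)
    have a2 := mul_le_mul_of_nonneg_right hx (sq_nonneg ρ)
    linarith only [a1, a2]
  have k2 : 2 * (r ^ 2 * x) ≤ 2 * (r * h) + 2 * r ^ 3 * p ^ 2 := by
    have := mul_le_mul_of_nonneg_left k1 (by positivity : (0:ℝ) ≤ 2 * r ^ 3)
    have e1 : 2 * r ^ 3 * (x * ρ) = 2 * (r ^ 2 * x) * (r * ρ) := by ring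
    have e2 : 2 * r ^ 3 * (h * ρ ^ 2 + p ^ 2) = 2 * (r * h) * (r * ρ) ^ 2 + 2 * r ^ 3 * p ^ 2 := by
      ring
    rw [e1, e2, hr] at this
    linarith
  -- the X term
  have k3 : X ^ 2 ≤ (33 / 2 * (s * d)) ^ 2 := by
    have a1 : p * n * dM ≤ (27 * d) * s ^ 2 * (10 * d) := by
      gcongr
    have a2 : (27 * d) * s ^ 2 * (10 * d) = 270 * (s * d) ^ 2 := by ring
    have a3 : (33 / 2 * (s * d)) ^ 2 = (1089 / 4) * (s * d) ^ 2 := by ring
    rw [a3]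
    have := sq_nonneg (s * d)
    linarith
  have k4 : X ≤ 33 / 2 * (s * d) := le_of_sq k3 (by positivity)
  have k5 : r * (4 * (s * p) + 4 * X) ≤ 174 * d := by
    have a1 : 4 * (s * p) + 4 * X ≤ 174 * (s * d) := by
      have := mul_le_mul_of_nonneg_left hpd hs.le
      linarith
    have a2 := mul_le_mul_of_nonneg_left a1 hr0.le
    have a3 := mul_le_mul_of_nonneg_right hrs (by positivity : (0:ℝ) ≤ 174 * d)
    have a4 : r * (174 * (s * d)) = r * s * (174 * d) := by ring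
    linarith
  have k6 : p * (-(r ^ 2) * (s ^ 2 + n - τ ^ 2)) ≤ p := by
    have a1 : (r * τ) ^ 2 ≤ 1 := by
      have : 0 ≤ r * τ := by positivity
      exact pow_le_one₀ this hrτ
    have a2 : 0 ≤ p * r ^ 2 * (s ^ 2 + n) := by positivity
    have a3 := mul_le_mul_of_nonneg_left a1 hp
    have a4 : p * (-(r ^ 2) * (s ^ 2 + n - τ ^ 2)) = p * (r * τ) ^ 2 - p * r ^ 2 * (s ^ 2 + n) := by
      ring
    linarith
  have k7 : c3 ≤ s * q / 3 := by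
    apply le_of_sq _ (by positivity)
    have a1 := mul_le_mul_of_nonneg_left hqs (sq_nonneg q)
    have a2 : q ^ 2 * q = q ^ 3 := by ring
    have a3 : (s * q / 3) ^ 2 = (q ^ 2 * (2 / 3 * s ^ 2)) / 6 := by ring
    rw [a3]
    linarith
  have e : (p * (-(r ^ 2) * (s ^ 2 + n - τ ^ 2) - 2 * r ^ 3 * p)
      + r * (4 * (s * p) + 4 * X - 2 * h) + 2 * (r ^ 2 * x))
      = p * (-(r ^ 2) * (s ^ 2 + n - τ ^ 2)) - 2 * r ^ 3 * p ^ 2 + r * (4 * (s * p) + 4 * X)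
        - 2 * (r * h) + 2 * (r ^ 2 * x) := by ring
  rw [e]
  linarith

/-- the real inequality at a touching point -/
theorem realF {s p q ρ r τ t mγ m1 m2 γ HG Hs : ℝ} (hs : 0 < s) (hp : 0 ≤ p) (hq : 0 ≤ q)
    (hρ : ρ = s + τ) (hτ : 0 < τ) (ht : 0 < t) (htτ : t * τ = 1) (hr : r * ρ = 1)
    (hm1 : 0 ≤ m1) (hmγ : 0 < mγ) (hHs : 0 ≤ Hs)
    (hγ1 : 1 ≤ γ) (hγ2 : γ ≤ 2) (hm20 : 0 ≤ m2) (hm2 : m2 ≤ 1 / 960)
    (hG : HG ≤ -(31 / 3) * p + 960 * (s * q))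
    (hq2 : 480 * q ≤ 480 * (τ ^ 2 * mγ))
    (htouch : 480 * (τ ^ 2 * mγ) = p * r + 240 * q) :
    0 < 480 * (τ ^ 2 * (γ * m1 * (s + t * Hs) - γ * (γ - 1) * m2 * (t ^ 2 * p))
      + mγ * (2 * (τ * (-τ ^ 2)))) - HG := by
  have hρ0 : 0 < ρ := by rw [hρ]; positivity
  have hρτ : τ ≤ ρ := by rw [hρ]; linarith
  have hρs : s ≤ ρ := by rw [hρ]; linarith
  set Ψ : ℝ := 480 * (τ ^ 2 * mγ) with hΨ
  have hΨ0 : 0 < Ψ := by rw [hΨ]; positivity
  have hpρ : p = ρ * (Ψ - 240 * q) := by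
    rw [htouch]
    have : ρ * (p * r + 240 * q - 240 * q) = p * (r * ρ) := by ring
    rw [this, hr, mul_one]
  -- the bound for HG
  have e1 : HG ≤ -(19 / 6) * (ρ * Ψ) := by
    have a1 : 960 * (s * q) ≤ 960 * (ρ * q) := by
      have := mul_le_mul_of_nonneg_right hρs hq
      linarith
    have a2 : -(31 / 3) * p + 960 * (ρ * q) = -(31 / 3) * (ρ * Ψ) + 3440 * (ρ * q) := by
      rw [hpρ]; ring
    have a3 : ρ * (480 * q) ≤ ρ * Ψ := mul_le_mul_of_nonneg_left hq2 hρ0.le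
    linarith
  have e2 : p ≤ ρ * Ψ := by
    have : 0 ≤ ρ * (240 * q) := by positivity
    rw [hpρ]; linarith
  have e3 : 480 * (τ ^ 2 * (γ * m1 * (s + t * Hs) - γ * (γ - 1) * m2 * (t ^ 2 * p))
      + mγ * (2 * (τ * (-τ ^ 2)))) = 480 * (τ ^ 2 * (γ * m1 * (s + t * Hs)))
      - 480 * (γ * (γ - 1)) * m2 * p * (t * τ) ^ 2 - 2 * (τ * Ψ) := by
    rw [hΨ]; ring
  have e4 : 0 ≤ 480 * (τ ^ 2 * (γ * m1 * (s + t * Hs))) := by
    have : 0 ≤ γ := by linarith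
    positivity
  have e5 : γ * (γ - 1) ≤ 2 := by
    have h1 : 0 ≤ γ - 1 := by linarith
    have h2 : γ * (γ - 1) ≤ 2 * 1 := mul_le_mul hγ2 (by linarith) h1 (by norm_num)
    linarith
  have e6 : 480 * (γ * (γ - 1)) * m2 * p ≤ p := by
    have h1 : 0 ≤ m2 * p := by positivity
    have h2 := mul_le_mul_of_nonneg_right e5 h1
    have h3 := mul_le_mul_of_nonneg_right hm2 hp
    have h4 : 480 * (γ * (γ - 1)) * m2 * p = 480 * (γ * (γ - 1) * (m2 * p)) := by ring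
    rw [h4]
    linarith
  have e7 : τ * Ψ ≤ ρ * Ψ := mul_le_mul_of_nonneg_right hρτ hΨ0.le
  have e8 : 0 < ρ * Ψ := by positivity
  rw [e3, htτ]
  linarith

theorem cdinv : ContDiffOn ℝ ((⊤ : ℕ∞) : WithTop ℕ∞) (fun x : ℝ => x⁻¹) (Set.Ioi 0) :=
  fun _ hx => (contDiffAt_inv ℝ (ne_of_gt hx)).contDiffWithinAt

theorem cdrpow (γ : ℝ) :
    ContDiffOn ℝ ((⊤ : ℕ∞) : WithTop ℕ∞) (fun x : ℝ => x ^ γ) (Set.Ioi 0) :=
  fun _ hx => (Real.contDiffAt_rpow_const_of_ne (ne_of_gt hx)).contDiffWithinAt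

theorem hdinv1 : ∀ x ∈ Set.Ioi (0:ℝ), HasDerivAt (fun x : ℝ => x⁻¹) ((fun x : ℝ => -(x ^ 2)⁻¹) x) x :=
  fun x hx => hasDerivAt_inv (ne_of_gt hx)

theorem hdinv2 : ∀ x ∈ Set.Ioi (0:ℝ), HasDerivAt (fun x : ℝ => -(x ^ 2)⁻¹)
    ((fun x : ℝ => 2 * (x ^ 3)⁻¹) x) x := by
  intro x hx
  have hx0 : x ≠ 0 := ne_of_gt hx
  have h := ((hasDerivAt_pow 2 x).inv (pow_ne_zero 2 hx0)).neg
  refine h.congr_deriv ?_
  show -(-(((2:ℕ):ℝ) * x ^ (2 - 1)) / (x ^ 2) ^ 2) = 2 * (x ^ 3)⁻¹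
  norm_num
  field_simp

theorem hdrpow1 (γ : ℝ) : ∀ x ∈ Set.Ioi (0:ℝ), HasDerivAt (fun x : ℝ => x ^ γ)
    ((fun x : ℝ => γ * x ^ (γ - 1)) x) x :=
  fun x hx => Real.hasDerivAt_rpow_const (Or.inl (ne_of_gt hx))

theorem hdrpow2 (γ : ℝ) : ∀ x ∈ Set.Ioi (0:ℝ), HasDerivAt (fun x : ℝ => γ * x ^ (γ - 1))
    ((fun x : ℝ => γ * (γ - 1) * x ^ (γ - 2)) x) x := by
  intro x hx
  have h := (Real.hasDerivAt_rpow_const (p := γ - 1) (Or.inl (ne_of_gt hx))).const_mul γ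
  refine h.congr_deriv ?_
  show γ * ((γ - 1) * x ^ (γ - 1 - 1)) = γ * (γ - 1) * x ^ (γ - 2)
  rw [show γ - 1 - 1 = γ - 2 by ring]
  ring

theorem p3 (hmp2 : Mp2Stmt) (hevs : EvsStmt) (hbia : BiaStmt) (hpq : PqStmt) (hprd : PrdStmt)
    (hbdd : BddStmt) : P3Stmt := by
  intro T F hF hRF κ s0 σ hκ hs0 hσ hσ1 hBd hBp hs hPin hq z0 t0
  have hB : F.Base := hF.toBase
  have hpos : ∀ z t, 0 < F.ev z t F.s := fun z t => lt_of_lt_of_le hs0 (hs z t)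
  set Y0 : ℝ := (960:ℝ) ^ (1 / σ) with hY0def
  have hY0 : 1 ≤ Y0 := Real.one_le_rpow (by norm_num) (by positivity)
  have hY0pos : 0 < Y0 := lt_of_lt_of_le one_pos hY0
  have hY0σ : Y0 ^ (-σ) = 1 / 960 := by
    rw [hY0def, ← Real.rpow_mul (by norm_num)]
    have : 1 / σ * -σ = -1 := by field_simp
    rw [this, Real.rpow_neg_one]
    norm_num
  set γ : ℝ := 2 - σ with hγ
  have hγ1 : 1 ≤ γ := by rw [hγ]; linarith
  have hγ2 : γ ≤ 2 := by rw [hγ]; linarith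
  have htpos : ∀ t : TI T, (0:ℝ) < t := fun t => t.2.1
  -- the elements
  have hfti : ∀ z t, F.ev z t F.tt ∈ Set.Ioi (0:ℝ) := by
    intro z t
    rw [hB.tt_ev]; exact htpos t
  obtain ⟨ti, hti⟩ := hB.comp (fun x => x⁻¹) (Set.Ioi 0) isOpen_Ioi cdinv F.tt hfti
  have hti' : ∀ z t, F.ev z t ti = (t:ℝ)⁻¹ := by
    intro z t
    rw [hti, hB.tt_ev]
  have hcti := hop_comp hB isOpen_Ioi cdinv hdinv1 hdinv2 hfti hti
  have hHti : ∀ a, F.H a ti = 0 := by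
    intro a
    apply hB.ext
    intro z t
    rw [(hcti z t).1 a, hB.tt_H]
    simp
  have hfρ : ∀ z t, F.ev z t (F.s + ti) ∈ Set.Ioi (0:ℝ) := by
    intro z t
    rw [map_add, hti']
    exact add_pos (hpos z t) (inv_pos.mpr (htpos t))
  obtain ⟨ρi, hρi⟩ := hB.comp (fun x => x⁻¹) (Set.Ioi 0) isOpen_Ioi cdinv (F.s + ti) hfρ
  have hcρ := hop_comp hB isOpen_Ioi cdinv hdinv1 hdinv2 hfρ hρi
  have hevm : ∀ z t, F.ev z t (algebraMap ℝ F.B Y0 + F.tt * F.s) = Y0 + t * F.ev z t F.s := by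
    intro z t
    rw [map_add, map_mul, hB.tt_ev, AlgHom.commutes]
    rfl
  have hfm : ∀ z t, F.ev z t (algebraMap ℝ F.B Y0 + F.tt * F.s) ∈ Set.Ioi (0:ℝ) := by
    intro z t
    rw [hevm]
    exact add_pos hY0pos (mul_pos (htpos t) (hpos z t))
  obtain ⟨mg, hmg⟩ := hB.comp (fun x => x ^ γ) (Set.Ioi 0) isOpen_Ioi (cdrpow γ) _ hfm
  have hcm := hop_comp hB isOpen_Ioi (cdrpow γ) (hdrpow1 γ) (hdrpow2 γ) hfm hmg
  -- evaluation of f
  have hevf : ∀ z t, F.ev z t ((480:ℝ) • (ti * ti * mg)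
      - (F.gg F.s F.s * ρi + (240:ℝ) • F.q)) =
      480 * (((t:ℝ)⁻¹) ^ 2 * (Y0 + t * F.ev z t F.s) ^ γ)
        - (F.ev z t (F.gg F.s F.s) * (F.ev z t F.s + (t:ℝ)⁻¹)⁻¹ + 240 * F.ev z t F.q) := by
    intro z t
    simp only [map_sub, map_add, map_smul, map_mul, smul_eq_mul, hti', hρi, hmg, hevm]
    ring
  -- near zero
  have hq0 : F.Bd0 F.q := by
    have hc := (hbdd T F hB).2.2.1
    have hadd : ∀ f g, F.Bd0 f → F.Bd0 g → F.Bd0 (f + g) := fun f g hf hg => (hc f g hf hg).1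
    have hsub : ∀ f g, F.Bd0 f → F.Bd0 g → F.Bd0 (f - g) := fun f g hf hg => (hc f g hf hg).2.1
    have hmul : ∀ f g, F.Bd0 f → F.Bd0 g → F.Bd0 (f * g) := fun f g hf hg => (hc f g hf hg).2.2.1
    have hsmul : ∀ (c : ℝ) f, F.Bd0 f → F.Bd0 (c • f) := fun c f hf => (hc f f hf hf).2.2.2 c
    have hM2 : ∀ i j, F.Bd0 (F.M i j ^ 2) := by
      intro i j
      rw [sq]
      exact hmul _ _ (hBd i j) (hBd i j)
    have hs' : F.Bd0 F.s := by
      unfold FBD.s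
      rw [Fin.sum_univ_three]
      exact hadd _ _ (hadd _ _ (hBd 0 0) (hBd 1 1)) (hBd 2 2)
    have hrow : ∀ i, F.Bd0 (∑ j, F.M i j ^ 2) := by
      intro i
      rw [Fin.sum_univ_three]
      exact hadd _ _ (hadd _ _ (hM2 i 0) (hM2 i 1)) (hM2 i 2)
    have hn : F.Bd0 F.n2 := by
      unfold FBD.n2
      rw [Fin.sum_univ_three]
      exact hadd _ _ (hadd _ _ (hrow 0) (hrow 1)) (hrow 2)
    unfold FBD.q
    apply hsub _ _ hn
    apply hsmul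
    rw [sq]
    exact hmul _ _ hs' hs'
  have hnear : ∃ δ > 0, ∀ z (t : TI T), (0:ℝ) < t → (t : ℝ) < 0 + δ →
      0 < F.ev z t ((480:ℝ) • (ti * ti * mg) - (F.gg F.s F.s * ρi + (240:ℝ) • F.q)) := by
    obtain ⟨Cp, tp, htp, htpT, hCp⟩ := hBp
    obtain ⟨Cq, tq, htq, htqT, hCq⟩ := hq0
    have hK : 0 ≤ |Cp| + 240 * |Cq| := by positivity
    refine ⟨min (min tp tq) (1 / (|Cp| + 240 * |Cq| + 1)), by positivity, ?_⟩
    intro z t ht htδ
    rw [zero_add] at htδ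
    have h1 : (t:ℝ) < tp := lt_of_lt_of_le htδ ((min_le_left _ _).trans (min_le_left _ _))
    have h2 : (t:ℝ) < tq := lt_of_lt_of_le htδ ((min_le_left _ _).trans (min_le_right _ _))
    have h3 : (t:ℝ) < 1 / (|Cp| + 240 * |Cq| + 1) := lt_of_lt_of_le htδ (min_le_right _ _)
    have hp1 := (abs_le.mp (hCp z t h1)).2
    have hq1 := (abs_le.mp (hCq z t h2)).2
    have hs1 := hpos z t
    rw [hevf]
    have ht1 : (t:ℝ) ≤ 1 := by
      apply h3.le.trans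
      rw [div_le_one (by positivity)]
      linarith
    have h4 : |Cp| + 240 * |Cq| + 1 < (t:ℝ)⁻¹ := by
      rw [lt_inv_comm₀ (by positivity) ht]
      rw [one_div] at h3
      exact h3
    have h5 : (1:ℝ) ≤ (t:ℝ)⁻¹ := (one_le_inv₀ ht).mpr ht1
    have h6 : (t:ℝ)⁻¹ ≤ ((t:ℝ)⁻¹) ^ 2 := by
      rw [sq]
      exact le_mul_of_one_le_left (by linarith) h5
    have h7 : 1 ≤ (Y0 + t * F.ev z t F.s) ^ γ := by
      apply Real.one_le_rpow
      · have : 0 < t * F.ev z t F.s := mul_pos ht hs1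
        linarith
      · linarith
    have h8 : ((t:ℝ)⁻¹) ^ 2 ≤ ((t:ℝ)⁻¹) ^ 2 * (Y0 + t * F.ev z t F.s) ^ γ :=
      le_mul_of_one_le_right (by positivity) h7
    have h9 : F.ev z t (F.gg F.s F.s) * (F.ev z t F.s + (t:ℝ)⁻¹)⁻¹ ≤ |Cp| := by
      have a1 : (F.ev z t F.s + (t:ℝ)⁻¹)⁻¹ ≤ 1 := by
        apply inv_le_one_of_one_le₀
        linarith
      have a0 : 0 ≤ (F.ev z t F.s + (t:ℝ)⁻¹)⁻¹ := by
        have : 0 ≤ (t:ℝ)⁻¹ := by positivity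
        positivity
      calc F.ev z t (F.gg F.s F.s) * (F.ev z t F.s + (t:ℝ)⁻¹)⁻¹
          ≤ |Cp| * (F.ev z t F.s + (t:ℝ)⁻¹)⁻¹ :=
            mul_le_mul_of_nonneg_right (hp1.trans (le_abs_self _)) a0
        _ ≤ |Cp| * 1 := mul_le_mul_of_nonneg_left a1 (abs_nonneg _)
        _ = |Cp| := mul_one _
    have h10 : 240 * F.ev z t F.q ≤ 240 * |Cq| := by
      have := hq1.trans (le_abs_self _)
      linarith
    linarith
  -- the touching point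
  have htouch : ∀ z (t : TI T), (0:ℝ) < t → (t : ℝ) ≤ t0 →
      F.ev z t ((480:ℝ) • (ti * ti * mg) - (F.gg F.s F.s * ρi + (240:ℝ) • F.q)) = 0 →
      (∀ z', 0 ≤ F.ev z' t ((480:ℝ) • (ti * ti * mg)
        - (F.gg F.s F.s * ρi + (240:ℝ) • F.q))) →
      0 < F.ev z t (F.Hop ((480:ℝ) • (ti * ti * mg)
        - (F.gg F.s F.s * ρi + (240:ℝ) • F.q))) := by
    intro z t ht _ hzero _
    rw [hevf] at hzero
    obtain ⟨hHs, hHq, -, -, hHp, -, -⟩ := hevs T F hF hRF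
    obtain ⟨b1, b2, b3, b4, b5, b6, b7, b8, b9⟩ := hbia T F hF hRF z t
    obtain ⟨c1, c2, c3, c4⟩ := hpq T F hF κ hκ.le hPin (fun z t => (hpos z t).le) z t
    have hs1 := hpos z t
    have hp1 : 0 ≤ F.ev z t (F.gg F.s F.s) := (b9 F.s).1
    have hh1 : 0 ≤ F.ev z t (F.h2 F.s) := (b9 F.s).2.1
    have hx1 := (b9 F.s).2.2.1
    have hn0 : 0 ≤ F.ev z t F.n2 := by
      unfold FBD.n2
      simp only [map_sum, map_pow]
      positivity
    -- tt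
    have hHoptt : F.Hop F.tt = 1 := by
      unfold FBD.Hop FBD.Lap
      simp [hB.tt_D, hB.tt_H]
    have hggtt : ∀ f, F.gg F.tt f = 0 := by
      intro f
      unfold FBD.gg
      simp [hB.tt_H]
    have hggti : ∀ f, F.gg ti f = 0 := by
      intro f
      unfold FBD.gg
      simp [hHti]
    have hHopti : F.ev z t (F.Hop ti) = -((t:ℝ)⁻¹) ^ 2 := by
      rw [(hcti z t).2.2, hHoptt, hggtt, hB.tt_ev]
      simp
    -- rho
    have hggρ : F.gg (F.s + ti) (F.s + ti) = F.gg F.s F.s := by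
      unfold FBD.gg
      simp [hHti]
    have hHopρ : F.ev z t (F.Hop (F.s + ti)) =
        F.ev z t F.s ^ 2 + F.ev z t F.n2 - ((t:ℝ)⁻¹) ^ 2 := by
      rw [(hprd T F F.s ti).2.1, map_add, hHs, hHopti, map_add, map_pow]
      ring
    have hevρ : F.ev z t (F.s + ti) = F.ev z t F.s + (t:ℝ)⁻¹ := by
      rw [map_add, hti']
    have hggpρ : F.ev z t (F.gg (F.gg F.s F.s) ρi) =
        -((F.ev z t F.s + (t:ℝ)⁻¹)⁻¹ ^ 2) * F.ev z t (F.gg (F.gg F.s F.s) F.s) := by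
      have e : ∀ a, F.ev z t (F.H a ρi) =
          -((F.ev z t F.s + (t:ℝ)⁻¹)⁻¹ ^ 2) * F.ev z t (F.H a F.s) := by
        intro a
        rw [(hcρ z t).1 a, hevρ, map_add (F.H a), hHti, add_zero, inv_pow]
      generalize F.gg F.s F.s = P
      unfold FBD.gg
      simp only [map_sum, map_mul, e]
      rw [Finset.mul_sum]
      apply Finset.sum_congr rfl
      intro a _
      ring
    -- m
    have hHopm : F.ev z t (F.Hop (algebraMap ℝ F.B Y0 + F.tt * F.s)) =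
        F.ev z t F.s + t * (F.ev z t F.s ^ 2 + F.ev z t F.n2) := by
      rw [(hprd T F _ _).2.1, ((hprd T F F.s F.s).2.2.2.1 Y0).2, (hprd T F _ _).1, hHoptt, hggtt,
        hHs]
      simp only [map_add, map_sub, map_mul, map_pow, map_smul, map_zero, map_one, hB.tt_ev]
      ring
    have hggm : F.ev z t (F.gg (algebraMap ℝ F.B Y0 + F.tt * F.s)
        (algebraMap ℝ F.B Y0 + F.tt * F.s)) = (t:ℝ) ^ 2 * F.ev z t (F.gg F.s F.s) := by
      have e : ∀ a, F.H a (algebraMap ℝ F.B Y0 + F.tt * F.s) = F.tt * F.H a F.s := by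
        intro a
        rw [map_add, Derivation.map_algebraMap, Derivation.leibniz, hB.tt_H]
        simp
      unfold FBD.gg
      simp only [e, map_sum, map_mul, hB.tt_ev]
      rw [Finset.mul_sum]
      apply Finset.sum_congr rfl
      intro a _
      ring
    -- Psi
    have hHti2 : ∀ a, F.H a (ti * ti) = 0 := by
      intro a
      rw [Derivation.leibniz, hHti]
      simp
    have hHopti2 : F.ev z t (F.Hop (ti * ti)) = 2 * ((t:ℝ)⁻¹ * -((t:ℝ)⁻¹) ^ 2) := by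
      rw [(hprd T F _ _).1, hggti]
      simp only [map_add, map_sub, map_mul, map_smul, map_zero, hHopti, hti']
      simp
      ring
    have hΨ : F.ev z t (F.Hop (ti * ti * mg)) =
        ((t:ℝ)⁻¹) ^ 2 * (γ * (Y0 + t * F.ev z t F.s) ^ (γ - 1) *
          (F.ev z t F.s + t * (F.ev z t F.s ^ 2 + F.ev z t F.n2))
          - γ * (γ - 1) * (Y0 + t * F.ev z t F.s) ^ (γ - 2) *
            ((t:ℝ) ^ 2 * F.ev z t (F.gg F.s F.s)))
        + (Y0 + t * F.ev z t F.s) ^ γ * (2 * ((t:ℝ)⁻¹ * -((t:ℝ)⁻¹) ^ 2)) := by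
      rw [(hprd T F _ _).1]
      have e0 : F.gg (ti * ti) mg = 0 := by
        unfold FBD.gg
        simp only [hHti2, zero_mul, Finset.sum_const_zero]
      rw [e0]
      simp only [map_add, map_mul, smul_zero, sub_zero, hHopti2,
        (hcm z t).2.2, hHopm, hggm, hevm, hmg, hti']
      ring
    -- the operator on G
    have hr : (F.ev z t F.s + (t:ℝ)⁻¹)⁻¹ * (F.ev z t F.s + (t:ℝ)⁻¹) = 1 := by
      have : 0 < (t:ℝ)⁻¹ := inv_pos.mpr ht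
      exact inv_mul_cancel₀ (by positivity)
    have hq2 : F.ev z t F.q ≤ 2 / 3 * F.ev z t F.s ^ 2 := by
      apply c3.trans
      have h1 : (1 - 3 * κ) * F.ev z t F.s ≤ F.ev z t F.s := by
        have := mul_pos hκ hs1
        linarith
      have h2 := pow_le_pow_left₀ c2 h1 2
      linarith
    have hGr := realG (X := F.ev z t (∑ a, ∑ i, ∑ j, F.H a F.s * F.M i j * F.H a (F.M i j)))
      (dM := F.ev z t F.dM) (c3 := F.ev z t F.c3) (x := F.ev z t (F.gg (F.gg F.s F.s) F.s))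
      hs1 hp1 b6 b4 hh1 rfl (inv_pos.mpr ht) hr b1 b2 b5 b7 c1 hn0 hx1 c4 hq2
    have hGe : F.ev z t (F.Hop (F.gg F.s F.s * ρi + (240:ℝ) • F.q)) =
        (F.ev z t (F.gg F.s F.s) * (-((F.ev z t F.s + (t:ℝ)⁻¹)⁻¹ ^ 2) *
          (F.ev z t F.s ^ 2 + F.ev z t F.n2 - ((t:ℝ)⁻¹) ^ 2)
          - 2 * (F.ev z t F.s + (t:ℝ)⁻¹)⁻¹ ^ 3 * F.ev z t (F.gg F.s F.s))
          + (F.ev z t F.s + (t:ℝ)⁻¹)⁻¹ * (4 * (F.ev z t F.s * F.ev z t (F.gg F.s F.s))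
            + 4 * F.ev z t (∑ a, ∑ i, ∑ j, F.H a F.s * F.M i j * F.H a (F.M i j))
            - 2 * F.ev z t (F.h2 F.s))
          + 2 * ((F.ev z t F.s + (t:ℝ)⁻¹)⁻¹ ^ 2 * F.ev z t (F.gg (F.gg F.s F.s) F.s)))
        + 240 * (-(2 * F.ev z t F.dM0) + 4 / 3 * (F.ev z t F.s * F.ev z t F.q)
          + 8 * F.ev z t F.c3) := by
      rw [(hprd T F _ _).2.1, (hprd T F _ _).1, ((hprd T F F.q F.q).2.2.2.1 240).1, hHp, hHq]
      simp only [map_add, map_sub, map_mul, map_smul, map_neg, smul_eq_mul, hggpρ,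
        (hcρ z t).2.2, hHopρ, hggρ, hevρ, hρi, inv_pow]
      ring
    rw [← hGe] at hGr
    have hqq : 480 * F.ev z t F.q ≤ 480 * (((t:ℝ)⁻¹) ^ 2 * (Y0 + t * F.ev z t F.s) ^ γ) := by
      have h1 := hq z t
      have h2 : (t:ℝ) ^ (-σ) * F.ev z t F.s ^ γ = ((t:ℝ)⁻¹) ^ 2 * (t * F.ev z t F.s) ^ γ := by
        rw [Real.mul_rpow ht.le hs1.le, ← mul_assoc]
        congr 1
        rw [← Real.rpow_natCast, Real.inv_rpow ht.le, ← Real.rpow_neg ht.le, ← Real.rpow_add ht]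
        congr 1
        rw [hγ]; push_cast; ring
      have h3 : (t * F.ev z t F.s) ^ γ ≤ (Y0 + t * F.ev z t F.s) ^ γ :=
        Real.rpow_le_rpow (by positivity) (by linarith) (by linarith)
      have h4 := mul_le_mul_of_nonneg_left h3 (by positivity : (0:ℝ) ≤ ((t:ℝ)⁻¹) ^ 2)
      rw [h2] at h1
      linarith
    have hmpos : 0 < Y0 + t * F.ev z t F.s := by positivity
    have hm2 : (Y0 + t * F.ev z t F.s) ^ (γ - 2) ≤ 1 / 960 := by
      rw [← hY0σ, show γ - 2 = -σ by rw [hγ]; ring]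
      apply Real.rpow_le_rpow_of_nonpos hY0pos _ (by linarith)
      have : 0 < t * F.ev z t F.s := mul_pos ht hs1
      linarith
    have hfin := realF (τ := (t:ℝ)⁻¹) (t := (t:ℝ)) (ρ := F.ev z t F.s + (t:ℝ)⁻¹)
      (r := (F.ev z t F.s + (t:ℝ)⁻¹)⁻¹)
      (mγ := (Y0 + t * F.ev z t F.s) ^ γ) (m1 := (Y0 + t * F.ev z t F.s) ^ (γ - 1))
      (m2 := (Y0 + t * F.ev z t F.s) ^ (γ - 2)) (γ := γ)
      (Hs := F.ev z t F.s ^ 2 + F.ev z t F.n2)
      hs1 hp1 b6 rfl (inv_pos.mpr ht) ht (mul_inv_cancel₀ ht.ne') hr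
      (Real.rpow_nonneg hmpos.le _) (Real.rpow_pos_of_pos hmpos _) (by positivity) hγ1 hγ2
      (Real.rpow_nonneg hmpos.le _) hm2 hGr hqq (by linarith)
    have hlast : F.ev z t (F.Hop ((480:ℝ) • (ti * ti * mg)
        - (F.gg F.s F.s * ρi + (240:ℝ) • F.q))) = 480 * F.ev z t (F.Hop (ti * ti * mg))
        - F.ev z t (F.Hop (F.gg F.s F.s * ρi + (240:ℝ) • F.q)) := by
      rw [(hprd T F _ _).2.2.1, ((hprd T F (ti * ti * mg) (ti * ti * mg)).2.2.2.1 480).1, map_sub,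
        map_smul, smul_eq_mul]
    rw [hlast, hΨ]
    exact hfin
  have hconcl := hmp2 T F hB _ 0 t0 le_rfl t0.2.2 hnear htouch z0 t0 (htpos t0) le_rfl
  rw [hevf] at hconcl
  have ht := htpos t0
  have e1 : (t0:ℝ) ^ (-2:ℝ) = ((t0:ℝ)⁻¹) ^ 2 := by
    rw [Real.rpow_neg ht.le, inv_pow]
    norm_num
  rw [e1, div_eq_mul_inv, one_div]
  linarith

end Pool.Agent.Helper77.RF
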